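import Mathlib
import Pool.Agent.NH98.VarProfile
import Pool.Agent.NH98.RadialSupport

/-! Q1 of MP_44eb1e_pr: for every irreducible nonnegative variance profile the support of the
deterministic equivalent is the whole closed disk of radius `√ρ(V)`; in particular it is
connected. -/

set_option autoImplicit false

namespace Pool.Agent.Results.MP_44eb1e_pr.SupportIsDisk

open Pool.Agent.NH98.VarProfile MeasureTheory

/-- For `n ≥ 1` and an irreducible nonnegative `A`, with `(q, qt)` the selected solutions of the
Master Equations: `F_A` is strictly increasing on `(0, √ρ(V)]`, and every rotation invariant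
probability measure `μ` on the plane with `μ {|z| ≤ s} = F_A(s)` for all `s > 0` has support
the closed disk of radius `√ρ(V)`, which is connected. -/
theorem result {n : ℕ} (hn : 0 < n) (A : Matrix (Fin n) (Fin n) ℝ) (hA : ∀ i j, 0 ≤ A i j)
    (hirr : ∀ i j, Relation.ReflTransGen (fun a b => 0 < A a b) i j)
    (q qt : ℝ → Fin n → ℝ) (hsel : IsSelected (varMat A) q qt) :
    StrictMonoOn (FA (varMat A) q qt) (Set.Ioc 0 (Real.sqrt (rho (varMat A)))) ∧
    ∀ μ : Measure ℂ, IsProbabilityMeasure μ →
      (∀ θ : ℝ, μ.map (fun z => Complex.exp (θ * Complex.I) * z) = μ) →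
      (∀ s, 0 < s → μ.real (Metric.closedBall 0 s) = FA (varMat A) q qt s) →
      μ.support = Metric.closedBall 0 (Real.sqrt (rho (varMat A))) ∧
      IsConnected μ.support := by
  have hn' : (0 : ℝ) < n := by exact_mod_cast hn
  have hV : ∀ i j, 0 ≤ varMat A i j := fun i j => div_nonneg (sq_nonneg _) hn'.le
  have hirrV : ∀ i j, Relation.ReflTransGen (fun a b => 0 < varMat A a b) i j := fun i j =>
    Relation.ReflTransGen.mono (fun a b hab => div_pos (pow_pos hab 2) hn') i j (hirr i j)
  have hmono := FA_strict (varMat A) hV hn hirrV q qt hsel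
  refine ⟨hmono, ?_⟩
  intro μ hμp hrot hμ
  have h1 := support_eq (Real.sqrt (rho (varMat A))) (FA (varMat A) q qt) hmono
    (fun s hs hsR => FA_one (varMat A) q qt hsel s hs hsR) μ hrot hμ (Real.sqrt_nonneg _)
  refine ⟨h1, ?_⟩
  rw [h1]
  exact ⟨⟨0, Metric.mem_closedBall_self (Real.sqrt_nonneg _)⟩,
    (convex_closedBall 0 _).isPreconnected⟩

end Pool.Agent.Results.MP_44eb1e_pr.SupportIsDisk
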