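import Pool.Agent.NH98.RT.Asm2

/-!
# The original product of Birch and Swinnerton-Dyer never converges with the rate `O(1 / log x)`

`E : y² = x³ + a x + b` is an elliptic curve over `ℚ`, `a, b ∈ ℤ`, `N_p` is the number of points modulo
`p` (with the point at infinity), `a_p = p + 1 - N_p` and `P(x) = ∏_{p ≤ x, p ∤ 2Δ} N_p / p`. Put

`P*(x) = P(x) exp (∑_{√x < p ≤ x} (a_p² - 2p)/(2p²))`,

the product over all prime powers `≤ x` (up to a factor `1 + O(x^{-1/12})`); by Rankin and Selberg `√2 P*(x) ∼ P(x)`.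
`F` is the entire continuation of the incomplete `L`-series, `f` is the newform of `E`. No hypothesis of Riemann type is made.

* For ALL curves, all real `ρ` and all `C > 0`: `√2 P*(x) = C (log x)^ρ (1 + O(1 / log x))` is FALSE.
* More precisely let `m = ord_{s=1} F` and `T = √2 e^{mγ} m! / |F^{(m)}(1)|` (the only order and the only constant possible in
  the conjecture, Goldfeld 1982). Then `(√2 P*(x) / (T (log x)^m) - 1) log x` has the limes superior `+∞`, and, if `F` has no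
  real zeros `s > 1`, the limes inferior `-∞`.
* All this holds for `P` in place of `√2 P*`, if the theorem of Rankin and Selberg (a theorem, which is proved with the much
  smaller error term `exp (-c √(log x))` in place of `1 / log x`, but not in this file) is used.

So the natural strengthening of the conjecture of Birch and Swinnerton-Dyer by the error term of the theorem of Mertens is
false for every elliptic curve.

Proof. If there is a zero with `Re s > 1` much larger oscillations are known (`Pool.Agent.TH949.TX`). Otherwise let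
`φ(u) = u (log P*(e^u) - m log u - const)`. Its Fourier coefficient at `x ≠ 0`, in the sense of Abel means, is `m_x / (i x)`,
`m_x` the multiplicity of the zero `1 + i x`. A bound `φ ≤ B` and the non-negative trigonometric sums of Bochner and Fejér
give, for all `σ > 0`, `∑_{x > 0} m_x 2σ / (σ² + x²) ≤ B'`; by the product of Hadamard and the functional equation the
completed `L`-function would be `O(e^{Kσ})` for real `σ`, but it grows like `Γ(1 + σ)`.
-/

set_option autoImplicit false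

namespace Pool.Agent.Results.MP_3283e1_nt.UnboundedRate

open Filter Topology Classical CongruenceSubgroup UpperHalfPlane
open scoped MatrixGroups

/-- `N_p`: the number of points of `y² = x³ + a x + b` modulo `p`, with the point at infinity. -/
noncomputable def numPoints (a b : ℤ) (p : ℕ) : ℕ :=
  Nat.card {q : ZMod p × ZMod p // q.2 ^ 2 = q.1 ^ 3 + (a : ZMod p) * q.1 + (b : ZMod p)} + 1

/-- `p` is a prime that does not divide `2 Δ`, where `Δ = -4 a³ - 27 b²`. -/
def Good (a b : ℤ) (p : ℕ) : Prop :=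
  p.Prime ∧ ¬ ((p : ℤ) ∣ 2 * (-4 * a ^ 3 - 27 * b ^ 2))

/-- The original Birch and Swinnerton-Dyer product `P(x) = ∏_{p ≤ x, p ∤ 2Δ} N_p / p`. -/
noncomputable def P (a b : ℤ) (x : ℝ) : ℝ :=
  ∏ p ∈ (Finset.range (⌊x⌋₊ + 1)).filter (Good a b), ((numPoints a b p : ℝ) / p)

/-- `∑ (a_p² - 2p) / (2p²)`, the sum over the primes `√x < p ≤ x`, `p ∤ 2Δ`, `a_p = p + 1 - N_p`. -/
noncomputable def squares (a b : ℤ) (x : ℝ) : ℝ :=
  ∑ p ∈ (Finset.range (⌊x⌋₊ + 1)).filter (fun p => Good a b p ∧ √x < p),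
    (((p : ℝ) + 1 - numPoints a b p) ^ 2 - 2 * p) / (2 * (p : ℝ) ^ 2)

/-- `P*(x) = P(x) exp (∑ (a_p² - 2p) / (2p²))`, the product over the prime powers. -/
noncomputable def Pstar (a b : ℤ) (x : ℝ) : ℝ := P a b x * Real.exp (squares a b x)

/-- The theorem of Rankin and Selberg for the primes, with the error term `O(1 / log x)`. -/
def RankinSelberg (a b : ℤ) : Prop :=
  ∃ K : ℝ, ∀ᶠ x : ℝ in atTop, |squares a b x + Real.log 2 / 2| ≤ K / Real.log x

/-- `F` is an entire function which for `Re s > 3/2` is the incomplete `L`-series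
`∏_{p ∤ 2Δ} (1 - a_p p^{-s} + p^{1-2s})⁻¹`, `a_p = p + 1 - N_p`, of `y² = x³ + a x + b`. -/
def IsLSeries (a b : ℤ) (F : ℂ → ℂ) : Prop :=
  Differentiable ℂ F ∧ ∀ s : ℂ, (3 : ℝ) / 2 < s.re →
    HasProd (fun p : ℕ => if Good a b p then
      (1 - ((p : ℂ) + 1 - (numPoints a b p : ℂ)) * (p : ℂ) ^ (-s) + (p : ℂ) ^ (1 - 2 * s))⁻¹ else 1)
      (F s)

/-- The `n`-th Fourier coefficient of `f`. -/
noncomputable def coef {N : ℕ} (f : CuspForm (Gamma0 N : Subgroup (GL (Fin 2) ℝ)) 2) (n : ℕ) : ℂ :=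
  (qExpansion 1 f).coeff n

/-- `f ∈ S_2(Γ₀(N))` is the newform of the elliptic curve `E : y² = x³ + a x + b` of conductor `N`: the
Fourier coefficients `c(n)` of `f` are real with `c(1) = 1`, they satisfy the Hecke relations
`c(mn) = c(m) c(n)` for coprime `m`, `n` and `c(p^(j+2)) = c(p) c(p^(j+1)) - p c(p^j)` (without the last
term if `p ∣ N`), `c(p) = a_p = p + 1 - N_p` for all primes `p ∤ 2Δ`, `|c(p)| ≤ 2 √p` for all
`p ∤ N` (Hasse), `c(p) = 0, 1, -1` for `p ∣ N`, and `f` is an eigenfunction of the involution of Fricke,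
`f(-1/(Nz)) = w N z² f(z)` with `w = 1` or `w = -1`. -/
structure IsNewformOf (a b : ℤ) (N : ℕ) (f : CuspForm (Gamma0 N : Subgroup (GL (Fin 2) ℝ)) 2) :
    Prop where
  one : coef f 1 = 1
  real : ∀ n, (coef f n).im = 0
  mul : ∀ m n : ℕ, Nat.Coprime m n → coef f (m * n) = coef f m * coef f n
  pow : ∀ p j : ℕ, p.Prime → coef f (p ^ (j + 2)) = coef f p * coef f (p ^ (j + 1)) -
      (if p ∣ N then 0 else (p : ℂ) * coef f (p ^ j))
  points : ∀ p : ℕ, Good a b p → coef f p = (p : ℂ) + 1 - (numPoints a b p : ℂ)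
  good : ∀ p : ℕ, p.Prime → ¬ p ∣ N → ‖coef f p‖ ≤ 2 * Real.sqrt p
  bad : ∀ p : ℕ, p.Prime → p ∣ N → coef f p = 0 ∨ coef f p = 1 ∨ coef f p = -1
  fricke : ∃ w : ℂ, (w = 1 ∨ w = -1) ∧ ∀ z z' : ℍ, (z' : ℂ) = -1 / ((N : ℂ) * (z : ℂ)) →
    f z' = w * (N : ℂ) * (z : ℂ) ^ 2 * f z

/-- Goldfeld's constant `T = √2 e^{mγ} m! / |F^{(m)}(1)|` -/
noncomputable def T (F : ℂ → ℂ) (m : ℕ) : ℝ :=
  √2 * Real.exp (m * Real.eulerMascheroniConstant) * (m.factorial : ℝ) / ‖iteratedDeriv m F 1‖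

/-! ### Translation to the definitions of the imported files -/

variable {a b : ℤ}

theorem P_eq (x : ℝ) : P a b x = Pool.Agent.W263.BSD.bsdProduct a b x := by
  unfold P Pool.Agent.W263.BSD.bsdProduct numPoints Pool.Agent.W263.BSD.pointCount
  refine Finset.prod_congr rfl fun p _ => ?_
  push_cast
  rfl

theorem squares_eq (x : ℝ) : squares a b x =
    ∑ p ∈ (Finset.range (⌊x⌋₊ + 1)).filter (fun p => Pool.Agent.W263.BSD.GoodPrime a b p ∧ √x < p),
      (((p : ℝ) - Pool.Agent.W263.BSD.pointCount a b p) ^ 2 - 2 * p) / (2 * (p : ℝ) ^ 2) := by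
  unfold squares
  refine Finset.sum_congr rfl fun p _ => ?_
  have h : (p : ℝ) + 1 - numPoints a b p = (p : ℝ) - Pool.Agent.W263.BSD.pointCount a b p := by
    unfold numPoints Pool.Agent.W263.BSD.pointCount
    push_cast
    ring
  rw [h]

theorem Pstar_eq (x : ℝ) : Pstar a b x = Pool.Agent.W263.BSD.bsdStar a b x := by
  unfold Pstar Pool.Agent.W263.BSD.bsdStar
  rw [P_eq, squares_eq]

theorem numPoints_sub (p : ℕ) : (p : ℂ) + 1 - (numPoints a b p : ℂ) =
    (p : ℂ) - (Pool.Agent.W263.BSD.pointCount a b p : ℂ) := by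
  unfold numPoints Pool.Agent.W263.BSD.pointCount
  push_cast
  ring

theorem isLSeries {F : ℂ → ℂ} (hF : IsLSeries a b F) :
    Pool.Agent.W263.BSD.IsLSeries a b F := by
  refine ⟨hF.1, fun s hs => ?_⟩
  have h := hF.2 s hs
  simp only [numPoints_sub] at h
  exact h

theorem hecke {N : ℕ} {f : CuspForm (Gamma0 N : Subgroup (GL (Fin 2) ℝ)) 2}
    (hf : IsNewformOf a b N f) : Pool.Agent.TH941.Hecke f where
  one := hf.one
  real := hf.real
  mul := hf.mul
  pow := hf.pow
  good := hf.good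
  bad := fun p hp h => by
    rcases hf.bad p hp h with h1 | h1 | h1
    · have h2 : ‖coef f p‖ ≤ 1 := by rw [h1]; simp
      exact h2
    · have h2 : ‖coef f p‖ ≤ 1 := by rw [h1]; simp
      exact h2
    · have h2 : ‖coef f p‖ ≤ 1 := by rw [h1]; simp
      exact h2

theorem belongs {N : ℕ} {f : CuspForm (Gamma0 N : Subgroup (GL (Fin 2) ℝ)) 2}
    (hf : IsNewformOf a b N f) : Pool.Agent.TH941.Belongs a b f :=
  fun p hp => (hf.points p hp).trans (numPoints_sub p)

theorem fricke {N : ℕ} {f : CuspForm (Gamma0 N : Subgroup (GL (Fin 2) ℝ)) 2}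
    (hf : IsNewformOf a b N f) : Pool.Agent.NH98.RT.Fricke f := hf.fricke

theorem P_pos (x : ℝ) : 0 < P a b x := by
  rw [P_eq]
  exact Pool.Agent.W263.BSD.bsdProduct_pos x

theorem Pstar_pos (x : ℝ) : 0 < Pstar a b x := mul_pos (P_pos x) (Real.exp_pos _)

/-! ### From logarithms to quotients -/

theorem log_le_sub {y : ℝ} (hy : 0 < y) : Real.log y ≤ y - 1 := Real.log_le_sub_one_of_pos hy

theorem abs_log_le {y : ℝ} (hy : 0 < y) (h : |y - 1| ≤ 1 / 2) : |Real.log y| ≤ 2 * |y - 1| := by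
  have h1 := abs_le.1 h
  have h2 := log_le_sub hy
  have h3 : 1 - y⁻¹ ≤ Real.log y := Real.one_sub_inv_le_log_of_pos hy
  have h4 : 1 - y⁻¹ = (y - 1) / y := by field_simp
  rw [h4] at h3
  have h5 : -(2 * |y - 1|) ≤ (y - 1) / y := by
    rw [le_div_iff₀ hy]
    have h6 := neg_abs_le (y - 1)
    have h7 := abs_nonneg (y - 1)
    nlinarith
  have h6 := le_abs_self (y - 1)
  have h7 := abs_nonneg (y - 1)
  rw [abs_le]
  constructor <;> linarith

/-- from an unbounded logarithm to an unbounded quotient -/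
theorem quot_of_log {Y : ℝ → ℝ} (hY : ∀ᶠ x : ℝ in atTop, 0 < Y x)
    (h : ∀ K : ℝ, ∃ᶠ x : ℝ in atTop, K < Real.log x * |Real.log (Y x)|) (K : ℝ) :
    ∃ᶠ x : ℝ in atTop, K < Real.log x * |Y x - 1| := by
  refine ((h (2 * |K|)).and_eventually (hY.and ((Real.tendsto_log_atTop.eventually_gt_atTop (2 * |K|)).and
    (eventually_gt_atTop 1)))).mono ?_
  rintro x ⟨h1, h2, h3, h4⟩
  have h5 : 0 < Real.log x := Real.log_pos h4
  have h6 := le_abs_self K
  rcases le_or_gt |Y x - 1| (1 / 2) with h7 | h7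
  · have h8 := abs_log_le h2 h7
    have h9 := mul_le_mul_of_nonneg_left h8 h5.le
    linarith
  · have h9 : Real.log x * (1 / 2) < Real.log x * |Y x - 1| := mul_lt_mul_of_pos_left h7 h5
    linarith

theorem quot_up {Y : ℝ → ℝ} (hY : ∀ᶠ x : ℝ in atTop, 0 < Y x)
    (h : ∀ K : ℝ, ∃ᶠ x : ℝ in atTop, K < Real.log x * Real.log (Y x)) (K : ℝ) :
    ∃ᶠ x : ℝ in atTop, K < Real.log x * (Y x - 1) := by
  refine ((h K).and_eventually (hY.and (eventually_gt_atTop 1))).mono ?_
  rintro x ⟨h1, h2, h4⟩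
  have h5 : 0 < Real.log x := Real.log_pos h4
  have h9 := mul_le_mul_of_nonneg_left (log_le_sub h2) h5.le
  linarith

theorem quot_down {Y : ℝ → ℝ} (hY : ∀ᶠ x : ℝ in atTop, 0 < Y x)
    (h : ∀ K : ℝ, ∃ᶠ x : ℝ in atTop, Real.log x * Real.log (Y x) < -K) (K : ℝ) :
    ∃ᶠ x : ℝ in atTop, Real.log x * (Y x - 1) < -K := by
  refine ((h (2 * |K|)).and_eventually (hY.and ((Real.tendsto_log_atTop.eventually_gt_atTop (2 * |K|)).and
    (eventually_gt_atTop 1)))).mono ?_
  rintro x ⟨h1, h2, h3, h4⟩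
  have h5 : 0 < Real.log x := Real.log_pos h4
  have h6 := le_abs_self K
  have h0 : Real.log (Y x) < 0 := by
    by_contra hcon
    have := mul_nonneg h5.le (not_lt.1 hcon)
    have := abs_nonneg K
    linarith
  have hY1 : Y x < 1 := (Real.log_neg_iff h2).1 h0
  rcases le_or_gt |Y x - 1| (1 / 2) with h7 | h7
  · have h8 := abs_log_le h2 h7
    rw [abs_of_neg h0, abs_of_neg (by linarith : Y x - 1 < 0)] at h8
    have h9 := mul_le_mul_of_nonneg_left h8 h5.le
    linarith
  · rw [abs_of_neg (by linarith : Y x - 1 < 0)] at h7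
    have h9 : Real.log x * (1 / 2) < Real.log x * -(Y x - 1) := mul_lt_mul_of_pos_left h7 h5
    linarith

/-! ### The theorem -/

/-- **The product of Birch and Swinnerton-Dyer does not converge with the rate `O(1 / log x)`.** -/
theorem result (a b : ℤ) (hΔ : 4 * a ^ 3 + 27 * b ^ 2 ≠ 0) (F : ℂ → ℂ) (hF : IsLSeries a b F)
    (N : ℕ) [NeZero N] (f : CuspForm (Gamma0 N : Subgroup (GL (Fin 2) ℝ)) 2)
    (hf : IsNewformOf a b N f) :
    (∀ ρ C : ℝ, 0 < C → ¬ ∃ K : ℝ, ∀ᶠ x : ℝ in atTop,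
      |√2 * Pstar a b x / (C * Real.log x ^ ρ) - 1| ≤ K / Real.log x) ∧
    (RankinSelberg a b → ∀ ρ C : ℝ, 0 < C → ¬ ∃ K : ℝ, ∀ᶠ x : ℝ in atTop,
      |P a b x / (C * Real.log x ^ ρ) - 1| ≤ K / Real.log x) ∧
    ∃ m : ℕ, analyticOrderAt F 1 = m ∧ 0 < T F m ∧
      (∀ K : ℝ, ∃ᶠ x : ℝ in atTop,
        K < Real.log x * (√2 * Pstar a b x / (T F m * Real.log x ^ m) - 1)) ∧
      ((∀ s : ℝ, 1 < s → F s ≠ 0) → ∀ K : ℝ, ∃ᶠ x : ℝ in atTop,
        Real.log x * (√2 * Pstar a b x / (T F m * Real.log x ^ m) - 1) < -K) ∧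
      (RankinSelberg a b →
        (∀ K : ℝ, ∃ᶠ x : ℝ in atTop, K < Real.log x * (P a b x / (T F m * Real.log x ^ m) - 1)) ∧
        ((∀ s : ℝ, 1 < s → F s ≠ 0) → ∀ K : ℝ, ∃ᶠ x : ℝ in atTop,
          Real.log x * (P a b x / (T F m * Real.log x ^ m) - 1) < -K)) := by
  have hF' := isLSeries hF
  obtain ⟨m, hm⟩ := Pool.Agent.W189.ML.order_finite_all hF' 1
  have hT : 0 < T F m := Pool.Agent.NH98.RT.TT_pos hF' hm
  -- the logarithm of the quotients
  have hs : ∀ ρ C x : ℝ, Real.log (√2 * Pstar a b x / (C * Real.log x ^ ρ)) =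
      Pool.Agent.TH270.MS.EQ.devStar a b ρ C x := by
    intro ρ C x
    unfold Pool.Agent.TH270.MS.EQ.devStar
    rw [Pstar_eq]
  have hp : ∀ ρ C x : ℝ, 0 < C → 1 < x → Real.log (P a b x / (C * Real.log x ^ ρ)) =
      Pool.Agent.TH270.MS.EQ.devStar a b ρ C x - (squares a b x + Real.log 2 / 2) := by
    intro ρ C x hC hx
    have h1 : 0 < C * Real.log x ^ ρ := mul_pos hC (Real.rpow_pos_of_pos (Real.log_pos hx) _)
    rw [← hs, Real.log_div (P_pos x).ne' h1.ne', Real.log_div (mul_pos (by positivity) (Pstar_pos x)).ne' h1.ne',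
      Real.log_mul (by positivity) (Pstar_pos x).ne', Pool.Agent.TH270.MS.EQ.log_sqrt_two]
    unfold Pstar
    rw [Real.log_mul (P_pos x).ne' (Real.exp_pos _).ne', Real.log_exp]
    ring
  have ps : ∀ ρ C : ℝ, 0 < C → ∀ᶠ x : ℝ in atTop, 0 < √2 * Pstar a b x / (C * Real.log x ^ ρ) := by
    intro ρ C hC
    filter_upwards [eventually_gt_atTop 1] with x hx
    have h1 : 0 < C * Real.log x ^ ρ := mul_pos hC (Real.rpow_pos_of_pos (Real.log_pos hx) _)
    have h2 := Pstar_pos (a := a) (b := b) x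
    positivity
  have pp : ∀ ρ C : ℝ, 0 < C → ∀ᶠ x : ℝ in atTop, 0 < P a b x / (C * Real.log x ^ ρ) := by
    intro ρ C hC
    filter_upwards [eventually_gt_atTop 1] with x hx
    have h1 : 0 < C * Real.log x ^ ρ := mul_pos hC (Real.rpow_pos_of_pos (Real.log_pos hx) _)
    have h2 := P_pos (a := a) (b := b) x
    positivity
  -- the difference of the logarithms
  have hd : RankinSelberg a b → ∃ K₀ : ℝ, ∀ᶠ x : ℝ in atTop,
      |Real.log x * (squares a b x + Real.log 2 / 2)| ≤ K₀ := by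
    rintro ⟨K₀, h⟩
    refine ⟨K₀, ?_⟩
    filter_upwards [h, eventually_gt_atTop 1] with x h1 h2
    have h3 := Real.log_pos h2
    rw [abs_mul, abs_of_pos h3]
    rw [le_div_iff₀ h3] at h1
    linarith
  obtain ⟨k1, k2⟩ := Pool.Agent.NH98.RT.main_lead hΔ hF' (hecke hf) (belongs hf) (fricke hf) hm
  have e2 : ∀ x : ℝ, √2 * Pstar a b x / (T F m * Real.log x ^ m) =
      √2 * Pstar a b x / (T F m * Real.log x ^ (m : ℝ)) := fun x => by rw [Real.rpow_natCast]
  have e3 : ∀ x : ℝ, P a b x / (T F m * Real.log x ^ m) =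
      P a b x / (T F m * Real.log x ^ (m : ℝ)) := fun x => by rw [Real.rpow_natCast]
  have hall : ∀ ρ C : ℝ, 0 < C → ∀ K : ℝ, ∃ᶠ x : ℝ in atTop,
      K < Real.log x * |Pool.Agent.TH270.MS.EQ.devStar a b ρ C x| := fun ρ C hC K =>
    Pool.Agent.NH98.RT.main_all hΔ hF' (hecke hf) (belongs hf) (fricke hf) ρ hC K
  refine ⟨fun ρ C hC => ?_, fun hRS ρ C hC => ?_, m, hm, hT, ?_, ?_, fun hRS => ⟨?_, ?_⟩⟩
  · rintro ⟨K, hK⟩
    have h1 := quot_of_log (ps ρ C hC) (fun K => by
      simp only [hs]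
      exact hall ρ C hC K) K
    refine h1 ?_
    filter_upwards [hK, eventually_gt_atTop 1] with x h2 h3
    rw [le_div_iff₀ (Real.log_pos h3)] at h2
    intro h4
    linarith
  · rintro ⟨K, hK⟩
    obtain ⟨K₀, hK₀⟩ := hd hRS
    have h1 := quot_of_log (pp ρ C hC) (fun K => by
      refine ((hall ρ C hC (K + K₀)).and_eventually (hK₀.and (eventually_gt_atTop 1))).mono ?_
      rintro x ⟨h2, h3, h4⟩
      have h5 := Real.log_pos h4
      rw [hp ρ C x hC h4]
      have h6 : Real.log x * |Pool.Agent.TH270.MS.EQ.devStar a b ρ C x| ≤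
          Real.log x * |Pool.Agent.TH270.MS.EQ.devStar a b ρ C x - (squares a b x + Real.log 2 / 2)| +
            |Real.log x * (squares a b x + Real.log 2 / 2)| := by
        rw [abs_mul, abs_of_pos h5, ← mul_add]
        refine mul_le_mul_of_nonneg_left ?_ h5.le
        have := abs_add_le (Pool.Agent.TH270.MS.EQ.devStar a b ρ C x - (squares a b x + Real.log 2 / 2))
          (squares a b x + Real.log 2 / 2)
        rwa [sub_add_cancel] at this
      linarith) K
    refine h1 ?_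
    filter_upwards [hK, eventually_gt_atTop 1] with x h2 h3
    rw [le_div_iff₀ (Real.log_pos h3)] at h2
    intro h4
    linarith
  · intro K
    simp only [e2]
    exact quot_up (ps m _ hT) (fun K => by simp only [hs]; exact k1 K) K
  · intro hreal K
    simp only [e2]
    exact quot_down (ps m _ hT) (fun K => by simp only [hs]; exact k2 hreal K) K
  · intro K
    obtain ⟨K₀, hK₀⟩ := hd hRS
    simp only [e3]
    refine quot_up (pp m _ hT) (fun K => ?_) K
    refine ((k1 (K + K₀)).and_eventually (hK₀.and (eventually_gt_atTop 1))).mono ?_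
    rintro x ⟨h2, h3, h4⟩
    rw [hp m _ x hT h4, mul_sub]
    have h5 := (abs_le.1 h3).2
    have h6 : K + K₀ < Real.log x * Pool.Agent.TH270.MS.EQ.devStar a b m (T F m) x := h2
    linarith
  · intro hreal K
    obtain ⟨K₀, hK₀⟩ := hd hRS
    simp only [e3]
    refine quot_down (pp m _ hT) (fun K => ?_) K
    refine ((k2 hreal (K + K₀)).and_eventually (hK₀.and (eventually_gt_atTop 1))).mono ?_
    rintro x ⟨h2, h3, h4⟩
    rw [hp m _ x hT h4, mul_sub]
    have h5 := (abs_le.1 h3).1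
    have h6 : Real.log x * Pool.Agent.TH270.MS.EQ.devStar a b m (T F m) x < -(K + K₀) := h2
    linarith

end Pool.Agent.Results.MP_3283e1_nt.UnboundedRate
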